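import Pool.Agent.U174.AK.Stm

/-!
Project AK, package TAY (Ostrowski): values of polynomials near a pseudolimit.
-/

set_option autoImplicit false

namespace Pool.Agent.U608.AK.TAY

open Pool.Agent.U174.AK Polynomial

theorem t_TAY : S_DOM → S_TAY := by
  intro hD K _ O E x hx Q
  rcases hD K O E x hx Q with h0 | ⟨h, h1, hne, a₀, ha₀, hEv⟩
  · left
    have hconst : ∀ a : K, Q.eval a = Q.eval x := by
      intro a
      have e1 : Q.eval a = (taylor x Q).eval (a - x) := by
        rw [taylor_eval, sub_add_cancel]
      have e2 : taylor x Q = C (Q.eval x) := by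
        ext i
        rcases Nat.eq_zero_or_pos i with hi | hi
        · subst hi
          rw [taylor_coeff_zero, coeff_C_zero]
        · rw [h0 i hi, coeff_C_of_ne_zero (by omega)]
      rw [e1, e2, eval_C]
    have hval : ∀ a ∈ E, O.valuation (x - a) ≤ O.valuation (x - 0) →
        O.valuation (Q.eval a) = O.valuation (Q.eval x) := fun a _ _ => by rw [hconst a]
    exact ⟨⟨O.valuation (Q.eval x), 0, E.zero_mem, hval⟩, 0, E.zero_mem, hval⟩
  · have hβ : 0 < O.valuation ((taylor x Q).coeff h) :=
      zero_lt_iff.mpr ((Valuation.ne_zero_iff _).mpr hne)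
    have hmono : ∀ s t : O.ValueGroup, s < t →
        O.valuation ((taylor x Q).coeff h) * s ^ h < O.valuation ((taylor x Q).coeff h) * t ^ h := by
      intro s t hst
      exact mul_lt_mul_of_pos_left (pow_lt_pow_left₀ hst zero_le (by omega)) hβ
    have hmono' : ∀ s t : O.ValueGroup, s ≤ t →
        O.valuation ((taylor x Q).coeff h) * s ^ h ≤ O.valuation ((taylor x Q).coeff h) * t ^ h := by
      intro s t hst
      exact mul_le_mul_of_nonneg_left (pow_le_pow_left₀ zero_le hst h) zero_le
    by_cases hcase : ∃ a₁ ∈ E, O.valuation (x - a₁) ≤ O.valuation (x - a₀) ∧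
        O.valuation ((taylor x Q).coeff h) * O.valuation (x - a₁) ^ h < O.valuation (Q.eval x)
    · obtain ⟨a₁, ha₁, hle, hlt⟩ := hcase
      left
      have hval : ∀ a ∈ E, O.valuation (x - a) ≤ O.valuation (x - a₁) →
          O.valuation (Q.eval a) = O.valuation (Q.eval x) := by
        intro a ha hal
        have e := (hEv a ha (hal.trans hle)).1
        have hlt2 : O.valuation (Q.eval a - Q.eval x) < O.valuation (Q.eval x) := by
          rw [e]
          exact lt_of_le_of_lt (hmono' _ _ hal) hlt
        have := Valuation.map_add_eq_of_lt_left O.valuation hlt2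
        rwa [add_sub_cancel] at this
      exact ⟨⟨O.valuation (Q.eval x), a₁, ha₁, hval⟩, a₁, ha₁, hval⟩
    · right
      have hall : ∀ a ∈ E, O.valuation (x - a) ≤ O.valuation (x - a₀) →
          O.valuation (Q.eval x) < O.valuation ((taylor x Q).coeff h) * O.valuation (x - a) ^ h := by
        intro a ha hal
        obtain ⟨a', ha', hlt⟩ := hx a ha
        refine lt_of_le_of_lt ?_ (hmono _ _ hlt)
        by_contra hcon
        exact hcase ⟨a', ha', hlt.le.trans hal, not_le.1 hcon⟩
      have hval : ∀ a ∈ E, O.valuation (x - a) ≤ O.valuation (x - a₀) →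
          O.valuation (Q.eval a) =
            O.valuation ((taylor x Q).coeff h) * O.valuation (x - a) ^ h := by
        intro a ha hal
        have e := (hEv a ha hal).1
        have hlt2 : O.valuation (Q.eval x) < O.valuation (Q.eval a - Q.eval x) := by
          rw [e]
          exact hall a ha hal
        have := Valuation.map_add_eq_of_lt_right O.valuation hlt2
        rw [add_sub_cancel] at this
        rw [this, e]
      refine ⟨a₀, ha₀, fun a ha hal => ⟨?_, fun a' ha' hlt => ?_⟩⟩
      · rw [hval a ha hal]
        exact hall a ha hal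
      · rw [hval a ha hal, hval a' ha' (hlt.le.trans hal)]
        exact hmono _ _ hlt

end Pool.Agent.U608.AK.TAY
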